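import Pool.Agent.H73.TS.Targets

/-!
Module `CH` of the board `ts_modules`.
-/

open Set

namespace Pool.Agent.H79.TS

open Pool.Agent.H73.TS

private theorem conc : ConcaveOn ℝ (Icc (0 : ℝ) (√(1 / 2))) (fun x : ℝ => Real.exp (-x ^ 2)) := by
  have hd1 : ∀ x : ℝ, HasDerivAt (fun x : ℝ => Real.exp (-x ^ 2)) (-(2 * x) * Real.exp (-x ^ 2)) x := by
    intro x
    have h0 : HasDerivAt (fun x : ℝ => -x ^ 2) (-(2 * x)) x := by
      have := (hasDerivAt_pow 2 x).fun_neg
      simpa using this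
    have h := h0.exp
    rwa [mul_comm] at h
  have hd2 : ∀ x : ℝ, HasDerivAt (fun x : ℝ => -(2 * x) * Real.exp (-x ^ 2))
      ((4 * x ^ 2 - 2) * Real.exp (-x ^ 2)) x := by
    intro x
    have h0 : HasDerivAt (fun x : ℝ => -(2 * x)) (-2) x := by
      have := ((hasDerivAt_id x).const_mul 2).fun_neg
      simpa using this
    have h := h0.fun_mul (hd1 x)
    refine h.congr_deriv ?_
    ring
  refine concaveOn_of_hasDerivWithinAt2_nonpos (convex_Icc _ _) (by fun_prop)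
    (fun x _ => (hd1 x).hasDerivWithinAt) (fun x _ => (hd2 x).hasDerivWithinAt) ?_
  intro x hx
  rw [interior_Icc] at hx
  have h1 : x ^ 2 ≤ 1 / 2 := by
    have := Real.sq_sqrt (show (0 : ℝ) ≤ 1 / 2 by norm_num)
    have h2 : x ^ 2 ≤ (√(1 / 2)) ^ 2 := pow_le_pow_left₀ hx.1.le hx.2.le 2
    linarith
  exact mul_nonpos_of_nonpos_of_nonneg (by linarith) (Real.exp_pos _).le

private theorem key {α β : ℝ} (hα : 0 ≤ α) (hαβ : α ≤ β) (hS : α ^ 2 + β ^ 2 ≤ 7 / 8) :
    Real.exp (β ^ 2 - α ^ 2) ≤ 1 + 2 * β * (β - α) := by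
  obtain ⟨D, hD⟩ : ∃ D, D = β ^ 2 - α ^ 2 := ⟨_, rfl⟩
  obtain ⟨X, hX⟩ : ∃ X, X = (β - α) ^ 2 := ⟨_, rfl⟩
  have hβ : 0 ≤ β := hα.trans hαβ
  have hD0 : 0 ≤ D := by rw [hD]; nlinarith
  have hD1 : D ≤ 7 / 8 := by rw [hD]; nlinarith
  have hX0 : 0 ≤ X := by rw [hX]; positivity
  have hXD : D ^ 2 + X ^ 2 ≤ X * (7 / 4) := by
    have h1 : X * (2 * (α ^ 2 + β ^ 2) - X) = D ^ 2 := by rw [hX, hD]; ring
    nlinarith
  have h2 : 4 / 7 * D ^ 2 ≤ X := by nlinarith
  have h3 : 16 / 49 * D ^ 4 ≤ X ^ 2 := by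
    have : (4 / 7 * D ^ 2) ^ 2 ≤ X ^ 2 := pow_le_pow_left₀ (by positivity) h2 2
    nlinarith
  have h4 : 4 / 7 * D ^ 2 + 64 / 343 * D ^ 4 ≤ X := by nlinarith
  have h5 := Real.exp_bound' hD0 (by linarith) (show 0 < 5 by norm_num)
  norm_num [Finset.sum_range_succ, Nat.factorial] at h5
  have h6 : (D ^ 2) * (1 / 2 + D / 6 + D ^ 2 / 24 + D ^ 3 / 100) ≤
      (D ^ 2) * (4 / 7 + 64 / 343 * D ^ 2) := by
    refine mul_le_mul_of_nonneg_left ?_ (by positivity)
    have h7 : D ^ 3 ≤ 7 / 8 * D ^ 2 := by nlinarith [sq_nonneg D]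
    nlinarith [sq_nonneg (D - 3 / 5)]
  have h8 : 1 + 2 * β * (β - α) = 1 + D + X := by rw [hD, hX]; ring
  rw [h8, ← hD]
  nlinarith

/-- lower tangent bound on the convex part -/
private theorem tang {x β : ℝ} (hx : √(1 / 2) ≤ x) (hxβ : x ≤ β) :
    Real.exp (-β ^ 2) * (1 + 2 * β * (β - x)) ≤ Real.exp (-x ^ 2) := by
  have hs : (√(1 / 2)) ^ 2 = 1 / 2 := Real.sq_sqrt (by norm_num)
  have hs0 : 0 ≤ √(1 / 2) := Real.sqrt_nonneg _
  have h1 : Real.exp (-x ^ 2) = Real.exp (-β ^ 2) * Real.exp (β ^ 2 - x ^ 2) := by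
    rw [← Real.exp_add]; ring_nf
  rw [h1]
  refine mul_le_mul_of_nonneg_left ?_ (Real.exp_pos _).le
  have hx0 : 0 ≤ x := hs0.trans hx
  have h2 : 0 ≤ β ^ 2 - x ^ 2 := by nlinarith
  have h3 := Real.quadratic_le_exp_of_nonneg h2
  refine le_trans ?_ h3
  have h4 : 1 / 2 ≤ x ^ 2 := by rw [← hs]; exact pow_le_pow_left₀ hs0 hx 2
  have h5 : (2 : ℝ) ≤ (β + x) ^ 2 := by nlinarith
  have h6 : (β - x) ^ 2 * 2 ≤ (β - x) ^ 2 * (β + x) ^ 2 :=
    mul_le_mul_of_nonneg_left h5 (by positivity)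
  nlinarith

private theorem ch_aux {α β t : ℝ} (hα : 0 ≤ α) (hαβ : α < β) (hS : α ^ 2 + β ^ 2 ≤ 7 / 8)
    (ht0 : 0 ≤ t) (ht1 : t ≤ 1) :
    (1 - t) * Real.exp (-α ^ 2) + t * Real.exp (-β ^ 2) ≤
      Real.exp (-((1 - t) * α + t * β) ^ 2) := by
  have hs : (√(1 / 2)) ^ 2 = 1 / 2 := Real.sq_sqrt (by norm_num)
  have hs0 : 0 ≤ √(1 / 2) := Real.sqrt_nonneg _
  set s := √(1 / 2) with hsd
  have hβ0 : 0 ≤ β := hα.trans hαβ.le
  rcases le_or_gt β s with hβ | hβ
  · have h := conc.2 (show α ∈ Icc (0 : ℝ) s from ⟨hα, hαβ.le.trans hβ⟩)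
      (show β ∈ Icc (0 : ℝ) s from ⟨hβ0, hβ⟩) (show 0 ≤ 1 - t by linarith) ht0 (by ring)
    simpa only [smul_eq_mul] using h
  · have hαs : α < s := by
      by_contra hcon
      push Not at hcon
      have h1 : 1 / 2 ≤ α ^ 2 := by rw [← hs]; exact pow_le_pow_left₀ hs0 hcon 2
      have h2 : 1 / 2 ≤ β ^ 2 := by rw [← hs]; exact pow_le_pow_left₀ hs0 hβ.le 2
      linarith
    have hba : 0 < β - α := by linarith
    -- the chord in the form through `β`
    have hkey : Real.exp (-α ^ 2) ≤ Real.exp (-β ^ 2) * (1 + 2 * β * (β - α)) := by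
      have := key hα hαβ.le hS
      have h1 : Real.exp (-α ^ 2) = Real.exp (-β ^ 2) * Real.exp (β ^ 2 - α ^ 2) := by
        rw [← Real.exp_add]; ring_nf
      rw [h1]
      exact mul_le_mul_of_nonneg_left this (Real.exp_pos _).le
    -- bound on the convex part
    have hconv : ∀ x : ℝ, s ≤ x → x ≤ β →
        ((β - x) / (β - α)) * Real.exp (-α ^ 2) + ((x - α) / (β - α)) * Real.exp (-β ^ 2) ≤
          Real.exp (-x ^ 2) := by
      intro x hx hxβ
      have h1 := tang hx hxβ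
      have h2 : ((β - x) / (β - α)) * Real.exp (-α ^ 2) ≤
          ((β - x) / (β - α)) * (Real.exp (-β ^ 2) * (1 + 2 * β * (β - α))) :=
        mul_le_mul_of_nonneg_left hkey (div_nonneg (by linarith) hba.le)
      have h3 : ((β - x) / (β - α)) * (Real.exp (-β ^ 2) * (1 + 2 * β * (β - α))) +
          ((x - α) / (β - α)) * Real.exp (-β ^ 2) =
          Real.exp (-β ^ 2) * (1 + 2 * β * (β - x)) := by
        field_simp
        ring
      linarith
    obtain ⟨x, hx⟩ : ∃ x, x = (1 - t) * α + t * β := ⟨_, rfl⟩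
    have hxα : α ≤ x := by rw [hx]; nlinarith
    have hxβ : x ≤ β := by rw [hx]; nlinarith
    have ht : t = (x - α) / (β - α) := by
      rw [hx]; field_simp; ring
    have ht' : 1 - t = (β - x) / (β - α) := by
      rw [hx]; field_simp; ring
    rw [← hx]
    rcases le_or_gt s x with hsx | hsx
    · rw [ht', ht]
      exact hconv x hsx hxβ
    · -- between `α` and `s`
      have hc := hconv s le_rfl hβ.le
      have hsa : 0 < s - α := by linarith
      have h := conc.2 (show α ∈ Icc (0 : ℝ) s from ⟨hα, hαs.le⟩)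
        (show s ∈ Icc (0 : ℝ) s from ⟨hs0, le_rfl⟩)
        (show 0 ≤ (s - x) / (s - α) from div_nonneg (by linarith) hsa.le)
        (show 0 ≤ (x - α) / (s - α) from div_nonneg (by linarith) hsa.le)
        (by field_simp; ring)
      simp only [smul_eq_mul] at h
      have hxx : (s - x) / (s - α) * α + (x - α) / (s - α) * s = x := by
        field_simp; ring
      rw [hxx] at h
      refine le_trans ?_ h
      have h2 := mul_le_mul_of_nonneg_left hc
        (show 0 ≤ (x - α) / (s - α) from div_nonneg (by linarith) hsa.le)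
      have h3 : (1 - t) * Real.exp (-α ^ 2) + t * Real.exp (-β ^ 2) =
          (s - x) / (s - α) * Real.exp (-α ^ 2) + (x - α) / (s - α) *
            ((β - s) / (β - α) * Real.exp (-α ^ 2) + (s - α) / (β - α) * Real.exp (-β ^ 2)) := by
        rw [ht', ht]
        field_simp
        ring
      rw [h3]
      linarith

theorem ch : T_CH := by
  intro α β t hα hβ hS ht0 ht1
  rcases lt_trichotomy α β with h | h | h
  · exact ch_aux hα h hS ht0 ht1
  · subst h
    have : (1 - t) * α + t * α = α := by ring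
    rw [this]
    linarith
  · have h1 := ch_aux hβ h (by linarith) (show 0 ≤ 1 - t by linarith) (by linarith : 1 - t ≤ 1)
    have h2 : (1 - (1 - t)) * β + (1 - t) * α = (1 - t) * α + t * β := by ring
    rw [h2] at h1
    linarith

end Pool.Agent.H79.TS
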