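import Pool.Agent.H73.TS.Targets

/-!
Modules `LH` and `CH` of the board `ts_modules`.
-/

open Set

namespace Pool.Agent.H79.TS

open Pool.Agent.H73.TS

private theorem tangent {t : ℝ} (ht0 : 0 ≤ t) (ht1 : t ≤ 1) (x x0 : ℝ) :
    ((1 - t) + t * Real.exp x0) *
        Real.exp (t * Real.exp x0 / ((1 - t) + t * Real.exp x0) * (x - x0)) ≤
      (1 - t) + t * Real.exp x := by
  have hZ : 0 < (1 - t) + t * Real.exp x0 := by
    rcases eq_or_lt_of_le ht0 with h | h
    · rw [← h]; norm_num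
    · have := mul_pos h (Real.exp_pos x0)
      linarith
  set Z := (1 - t) + t * Real.exp x0 with hZdef
  set p := t * Real.exp x0 / Z with hp
  have hp0 : 0 ≤ p := div_nonneg (mul_nonneg ht0 (Real.exp_pos _).le) hZ.le
  have hp1 : 1 - p = (1 - t) / Z := by
    rw [hp, eq_div_iff hZ.ne', sub_mul, div_mul_cancel₀ _ hZ.ne', hZdef]
    ring
  have hp1' : 0 ≤ 1 - p := by
    rw [hp1]; exact div_nonneg (by linarith) hZ.le
  have hc := convexOn_exp.2 (mem_univ (0 : ℝ)) (mem_univ (x - x0)) hp1' hp0 (by ring)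
  simp only [smul_eq_mul, mul_zero, zero_add, Real.exp_zero, mul_one] at hc
  calc Z * Real.exp (p * (x - x0)) ≤ Z * ((1 - p) + p * Real.exp (x - x0)) :=
        mul_le_mul_of_nonneg_left hc hZ.le
    _ = (1 - t) + t * Real.exp x := by
        rw [hp1, hp, mul_add, mul_div_cancel₀ _ hZ.ne', ← mul_assoc, mul_div_cancel₀ _ hZ.ne',
          mul_assoc, ← Real.exp_add]
        ring_nf

theorem lh : T_LH := by
  intro a b t ha hb ht0 ht1
  obtain ⟨L, hL⟩ : ∃ L, L = Real.log b - Real.log a := ⟨_, rfl⟩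
  obtain ⟨x0, hx0⟩ : ∃ x0, x0 = L / 15 := ⟨_, rfl⟩
  have hZ : ∀ x : ℝ, 0 < (1 - t) + t * Real.exp x := by
    intro x
    rcases eq_or_lt_of_le ht0 with h | h
    · rw [← h]; norm_num
    · have := mul_pos h (Real.exp_pos x)
      linarith
  obtain ⟨Z, hZd⟩ : ∃ Z, Z = (1 - t) + t * Real.exp x0 := ⟨_, rfl⟩
  have hZp : 0 < Z := by rw [hZd]; exact hZ x0
  obtain ⟨p, hp⟩ : ∃ p, p = t * Real.exp x0 / Z := ⟨_, rfl⟩
  have htan : ∀ x : ℝ, Z * Real.exp (p * (x - x0)) ≤ (1 - t) + t * Real.exp x := by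
    intro x
    rw [hp, hZd]
    exact tangent ht0 ht1 x x0
  have hlog : ∀ ν : ℝ, 0 < ν → ((1 - t) * a ^ (1 / ν) + t * b ^ (1 / ν)) ^ ν =
      a * ((1 - t) + t * Real.exp (L / ν)) ^ ν := by
    intro ν hν
    have h1 : b ^ (1 / ν) = a ^ (1 / ν) * Real.exp (L / ν) := by
      rw [Real.rpow_def_of_pos hb, Real.rpow_def_of_pos ha, ← Real.exp_add, hL]
      congr 1
      ring
    rw [h1, show (1 - t) * a ^ (1 / ν) + t * (a ^ (1 / ν) * Real.exp (L / ν)) =
      a ^ (1 / ν) * ((1 - t) + t * Real.exp (L / ν)) by ring,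
      Real.mul_rpow (Real.rpow_nonneg ha.le _) (hZ _).le, ← Real.rpow_mul ha.le,
      one_div_mul_cancel hν.ne', Real.rpow_one]
  have hhh : hh a b t = a * Z ^ (15 : ℕ) := by
    have h15 := hlog 15 (by norm_num)
    rw [← hx0, ← hZd] at h15
    unfold hh
    rw [← Real.rpow_natCast, ← Real.rpow_natCast]
    push_cast
    exact h15
  refine ⟨Real.log Z - x0 * p, ?_, ?_⟩
  · have h0 := htan 0
    have h1 : Z * Real.exp (p * (0 - x0)) ≤ 1 := by
      refine h0.trans ?_
      rw [Real.exp_zero]; linarith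
    have h2 : Real.log (Z * Real.exp (p * (0 - x0))) ≤ 0 :=
      Real.log_nonpos (by positivity) h1
    rw [Real.log_mul hZp.ne' (Real.exp_pos _).ne', Real.log_exp] at h2
    linarith
  · intro ν hν
    rw [hlog ν hν, hhh]
    set β := Real.log Z - x0 * p with hβ
    have h1 : (Z * Real.exp (p * (L / ν - x0))) ^ ν ≤ ((1 - t) + t * Real.exp (L / ν)) ^ ν :=
      Real.rpow_le_rpow (by positivity) (htan (L / ν)) hν.le
    have h2 : (Z * Real.exp (p * (L / ν - x0))) ^ ν = Z ^ (15 : ℕ) * Real.exp ((ν - 15) * β) := by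
      rw [Real.rpow_def_of_pos (by positivity), Real.log_mul hZp.ne' (Real.exp_pos _).ne',
        Real.log_exp, ← Real.rpow_natCast, Real.rpow_def_of_pos hZp, ← Real.exp_add]
      congr 1
      rw [hβ, hx0]
      push_cast
      field_simp
      ring
    have h3 : 1 + β * (ν - 15) ≤ Real.exp ((ν - 15) * β) := by
      have := Real.add_one_le_exp ((ν - 15) * β)
      linarith
    calc a * Z ^ (15 : ℕ) * (1 + β * (ν - 15))
        ≤ a * Z ^ (15 : ℕ) * Real.exp ((ν - 15) * β) :=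
          mul_le_mul_of_nonneg_left h3 (by positivity)
      _ = a * (Z * Real.exp (p * (L / ν - x0))) ^ ν := by rw [h2]; ring
      _ ≤ a * ((1 - t) + t * Real.exp (L / ν)) ^ ν := mul_le_mul_of_nonneg_left h1 ha.le

end Pool.Agent.H79.TS
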