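import Pool.Agent.H73.TS.TargetsB

/-!
Module `FIQ` of the board `ts_modules`.
-/

open Set

namespace Pool.Agent.H79.TS

open Pool.Agent.H73.TS

private theorem mem_int {d : ℕ} {K : Set (E d)} {x0 : E d} (hx0 : x0 ∈ interior K) (t : E d) :
    t + x0 ∈ interior ((fun x => t + x) '' K) := by
  have h := (Homeomorph.addLeft t).image_interior K
  have h2 : t + x0 ∈ (Homeomorph.addLeft t) '' interior K := ⟨x0, hx0, rfl⟩
  rw [h] at h2
  exact h2

theorem fiq (hCNT : T_CNT) (hSEQ : T_SEQ) : T_FIQ := by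
  intro d L K T Q S hd2 hd8 hK hKc hKi hw hTS hST hQ hQc hQn hSQ
  obtain ⟨x0, hx0⟩ := hKi
  have hx0K : x0 ∈ K := interior_subset hx0
  have hcard : (S.image (fun u => L u)).card = S.card :=
    Finset.card_image_of_injective _ L.injective
  rw [← hcard]
  refine hCNT d (S.image (fun u => L u)) Q hd2 hd8 hQ hQc ?_ hQn ?_
  · intro z hz
    rw [Finset.mem_coe, Finset.mem_image] at hz
    obtain ⟨u, hu, rfl⟩ := hz
    exact hSQ u hu
  · intro x hx y hy hxy
    rw [Finset.mem_image] at hx hy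
    obtain ⟨t, ht, rfl⟩ := hx
    obtain ⟨s, hs, rfl⟩ := hy
    have hts : t ≠ s := fun h => hxy (by rw [h])
    obtain ⟨f, c, hf, hft, hfs, hint⟩ := hTS t (hST ht) s (hST hs) hts
    obtain ⟨e, c', he, hec⟩ := hSEQ d L K hK hKc ⟨x0, hx0⟩ hw f c hf
    refine ⟨e, c', he, Or.inl ⟨?_, ?_⟩, ?_⟩
    · rcases hec t (hint t (hST ht)) with h | h
      · exact h.1
      · exact absurd (le_antisymm (hft x0 hx0K) (h.2 x0 hx0K))
          (hint t (hST ht) _ (mem_int hx0 t))
    · rcases hec s (hint s (hST hs)) with h | h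
      · exact absurd (le_antisymm (h.2 x0 hx0K) (hfs x0 hx0K))
          (hint s (hST hs) _ (mem_int hx0 s))
      · exact h.1
    · intro z hz
      rw [Finset.mem_image] at hz
      obtain ⟨u, hu, rfl⟩ := hz
      rcases hec u (hint u (hST hu)) with h | h
      · exact Or.inl h.1
      · exact Or.inr h.1

end Pool.Agent.H79.TS
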